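import Pool.Agent.H.MP_29028a_co.A

namespace Pool.Agent.Results.MP_29028a_co.Yes
open Pool.Agent.H.MP_29028a_co

theorem result : ∃ (M : Model) (t₁ t₂ : ℝ), t₁ ∈ Set.Ioo 0 (1 / M.total) ∧
    t₂ ∈ Set.Ioo 0 (1 / M.total) ∧ M.Decouples t₁ ∧ ¬ M.Decouples t₂ := by
  refine ⟨M0, 2 / 127, 1 / 676, ?_, ?_, dec1, not_dec2⟩ <;>
  · rw [total_eq]
    constructor <;> norm_num

end Pool.Agent.Results.MP_29028a_co.Yes
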